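import Pool.Agent.W772.FA.Defs

/-!
# Oscillatory integral of one block (FAE-BO)
-/

set_option autoImplicit false

open MeasureTheory Set Metric Filter Complex intervalIntegral
open scoped ENNReal Topology

namespace Pool.Agent.W253.FA

open Pool.Agent.W772.FA

/-- the phase -/
noncomputable def th (r q u : ℝ) : ℝ := r * u + q / 4 * (u / (1 + u ^ 2))

noncomputable def th1 (r q u : ℝ) : ℝ := r + q / 4 * ((1 - u ^ 2) / (1 + u ^ 2) ^ 2)

noncomputable def th2 (q u : ℝ) : ℝ := q / 2 * (u * (u ^ 2 - 3) / (1 + u ^ 2) ^ 3)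

lemma pos1 (u : ℝ) : 0 < 1 + u ^ 2 := by positivity

lemma hasDeriv_sq (u : ℝ) : HasDerivAt (fun u : ℝ => 1 + u ^ 2) (2 * u) u := by
  have := (hasDerivAt_pow 2 u).const_add 1
  simpa using this

lemma th_deriv (r q u : ℝ) : HasDerivAt (th r q) (th1 r q u) u := by
  have h1 := (hasDerivAt_id u).div (hasDeriv_sq u) (pos1 u).ne'
  have h2 := ((hasDerivAt_id u).const_mul r).add (h1.const_mul (q / 4))
  refine h2.congr_deriv ?_
  simp only [th1, id]
  have := (pos1 u).ne'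
  field_simp
  ring

lemma th1_deriv (r q u : ℝ) : HasDerivAt (th1 r q) (th2 q u) u := by
  have h0 : HasDerivAt (fun u : ℝ => 1 - u ^ 2) (-(2 * u)) u := by
    have := (hasDerivAt_pow 2 u).const_sub 1
    simpa using this
  have h3 : HasDerivAt (fun u : ℝ => (1 + u ^ 2) ^ 2) (2 * (1 + u ^ 2) * (2 * u)) u := by
    have := (hasDeriv_sq u).fun_pow 2
    simpa using this
  have h1 := h0.div h3 (by have := (pos1 u).ne'; positivity)
  have h2 := (h1.const_mul (q / 4)).const_add r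
  refine h2.congr_deriv ?_
  simp only [th2]
  have := (pos1 u).ne'
  field_simp
  ring

lemma th2_cont (q : ℝ) : Continuous (th2 q) := by
  unfold th2
  refine continuous_const.mul ?_
  refine Continuous.div (by fun_prop) (by fun_prop) ?_
  intro u
  have := (pos1 u).ne'
  positivity

lemma th_cont (r q : ℝ) : Continuous (th r q) :=
  continuous_iff_continuousAt.2 fun u => (th_deriv r q u).continuousAt

/-- bound for the integral of the cosine of the phase, with a shift `φ` -/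
lemma cos_bound {c R r q a b : ℝ} (hc : 0 < c) (hR : 2 ≤ R) (hr : c ≤ r) (hq : 0 ≤ q)
    (ha : R ≤ a) (hab : a ≤ b) (hb : b ≤ 8 * R) (φ : ℝ) :
    |∫ x in a..b, Real.cos (th r q x - φ)| ≤
      (6 / c + 8 * Real.sqrt (4000 / c)) * Real.sqrt R := by
  have hr0 : 0 < r := hc.trans_le hr
  have hR0 : 0 < R := by linarith
  have hsR : 1 ≤ Real.sqrt R := by
    rw [Real.one_le_sqrt]; linarith
  have d1 : ∀ x ∈ Icc a b, HasDerivAt (fun x => th r q x - φ) (th1 r q x) x := fun x _ =>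
    (th_deriv r q x).sub_const φ
  have d2 : ∀ x ∈ Icc a b, HasDerivAt (th1 r q) (th2 q x) x := fun x _ => th1_deriv r q x
  have hu : ∀ x ∈ Icc a b, R ≤ x ∧ x ≤ 8 * R := fun x hx => ⟨ha.trans hx.1, hx.2.trans hb⟩
  by_cases hcase : q ≤ 2 * r * R ^ 2
  · have h1 := Pool.Agent.W66V.vdc1 (θ := fun x => th r q x - φ) (m := r / 2) hab d1 d2
      (th2_cont q).continuousOn ?_ (by positivity) (Or.inl ?_)
    · refine h1.trans ?_
      have e1 : 3 / (r / 2) = 6 / r := by field_simp; norm_num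
      have e2 : 6 / r ≤ 6 / c := by gcongr
      rw [e1]
      have e3 : 0 ≤ 8 * Real.sqrt (4000 / c) := by positivity
      have e4 : 0 < 6 / c := by positivity
      nlinarith
    · intro x hx
      have hx2 : 2 ≤ x := hR.trans (hu x hx).1
      unfold th2
      have h3 : 0 ≤ x ^ 2 - 3 := by nlinarith
      have h4 := pos1 x
      positivity
    · intro x hx
      have hxR := (hu x hx).1
      have hx0 : 0 < x := by linarith
      unfold th1
      have h5 : (x ^ 2 - 1) / (1 + x ^ 2) ^ 2 ≤ 1 / R ^ 2 := by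
        rw [div_le_div_iff₀ (by have := pos1 x; positivity) (by positivity)]
        have h6 : R ^ 2 ≤ x ^ 2 := by gcongr
        have h7 : 1 ≤ x ^ 2 := by nlinarith
        nlinarith
      have h8 : (1 - x ^ 2) / (1 + x ^ 2) ^ 2 = - ((x ^ 2 - 1) / (1 + x ^ 2) ^ 2) := by ring
      rw [h8]
      have h9 : q / 4 * ((x ^ 2 - 1) / (1 + x ^ 2) ^ 2) ≤ q / 4 * (1 / R ^ 2) := by gcongr
      have h10 : q / 4 * (1 / R ^ 2) ≤ (2 * r * R ^ 2) / 4 * (1 / R ^ 2) := by gcongr
      have h11 : (2 * r * R ^ 2) / 4 * (1 / R ^ 2) = r / 2 := by field_simp; norm_num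
      linarith
  · push Not at hcase
    have h1 := Pool.Agent.W66V.vdc2 (θ := fun x => th r q x - φ) (ρ := r / (4000 * R)) hab d1 d2
      (th2_cont q).continuousOn (by positivity) ?_
    · refine h1.trans ?_
      have e1 : 8 / Real.sqrt (r / (4000 * R)) ≤ 8 * Real.sqrt (4000 / c) * Real.sqrt R := by
        rw [mul_assoc, ← Real.sqrt_mul (by positivity), div_eq_mul_inv, ← Real.sqrt_inv]
        gcongr
        rw [inv_div]
        rw [div_mul_eq_mul_div]
        gcongr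
      have e2 : 0 ≤ 6 / c * Real.sqrt R := by positivity
      linarith
    · intro x hx
      have hxR := (hu x hx).1
      have hx8 := (hu x hx).2
      have hx0 : 0 < x := by linarith
      have hx2 : 2 ≤ x := by linarith
      unfold th2
      have h3 : x ^ 2 / 4 ≤ x ^ 2 - 3 := by nlinarith
      have h4 : 1 + x ^ 2 ≤ 5 / 4 * x ^ 2 := by nlinarith
      have h5 : x * (x ^ 2 / 4) / (5 / 4 * x ^ 2) ^ 3 ≤ x * (x ^ 2 - 3) / (1 + x ^ 2) ^ 3 := by
        gcongr
        · have : 0 ≤ x ^ 2 - 3 := by nlinarith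
          positivity
      have h6 : x * (x ^ 2 / 4) / (5 / 4 * x ^ 2) ^ 3 = 16 / 125 * (1 / x ^ 3) := by
        field_simp
        norm_num
      have h7 : 1 / (8 * R) ^ 3 ≤ 1 / x ^ 3 := by gcongr
      have h8 : r / (4000 * R) = (2 * r * R ^ 2) / 2 * (16 / 125 * (1 / (8 * R) ^ 3)) := by
        field_simp
        norm_num
      rw [h8]
      have h9 : 16 / 125 * (1 / (8 * R) ^ 3) ≤ x * (x ^ 2 - 3) / (1 + x ^ 2) ^ 3 := by
        rw [h6] at h5
        linarith
      gcongr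

/-- the oscillating primitive -/
noncomputable def HH (r q a t : ℝ) : ℂ := ∫ u in a..t, cexp (-(I * ((th r q u : ℝ) : ℂ)))

lemma exp_cont (r q : ℝ) : Continuous (fun u : ℝ => cexp (-(I * ((th r q u : ℝ) : ℂ)))) := by
  have := th_cont r q
  fun_prop

lemma HH_deriv (r q a t : ℝ) :
    HasDerivAt (HH r q a) (cexp (-(I * ((th r q t : ℝ) : ℂ)))) t :=
  ((exp_cont r q).integral_hasStrictDerivAt a t).hasDerivAt

lemma HH_bound {c R r q a b : ℝ} (hc : 0 < c) (hR : 2 ≤ R) (hr : c ≤ r) (hq : 0 ≤ q)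
    (ha : R ≤ a) (hab : a ≤ b) (hb : b ≤ 8 * R) :
    ‖HH r q a b‖ ≤ 2 * (6 / c + 8 * Real.sqrt (4000 / c)) * Real.sqrt R := by
  have h1 := cos_bound hc hR hr hq ha hab hb 0
  have h2 := cos_bound hc hR hr hq ha hab hb (Real.pi / 2)
  have e1 : HH r q a b = ((∫ x in a..b, Real.cos (th r q x - 0) : ℝ) : ℂ) -
      I * ((∫ x in a..b, Real.cos (th r q x - Real.pi / 2) : ℝ) : ℂ) := by
    unfold HH
    rw [← intervalIntegral.integral_ofReal, ← intervalIntegral.integral_ofReal,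
      ← intervalIntegral.integral_const_mul, ← intervalIntegral.integral_sub]
    · refine intervalIntegral.integral_congr fun x _ => ?_
      simp only [sub_zero, Real.cos_sub_pi_div_two]
      have : -(I * ((th r q x : ℝ) : ℂ)) = ((-(th r q x) : ℝ) : ℂ) * I := by
        push_cast; ring
      rw [this, Complex.exp_mul_I, ← Complex.ofReal_cos, ← Complex.ofReal_sin, Real.cos_neg,
        Real.sin_neg]
      push_cast
      ring
    · apply Continuous.intervalIntegrable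
      have := th_cont r q
      fun_prop
    · apply Continuous.intervalIntegrable
      have := th_cont r q
      fun_prop
  rw [e1]
  refine (norm_sub_le _ _).trans ?_
  rw [norm_mul, Complex.norm_I, one_mul, Complex.norm_real, Complex.norm_real, Real.norm_eq_abs,
    Real.norm_eq_abs]
  linarith

/-- the square root of the base -/
noncomputable def ss (u : ℝ) : ℂ := (((4 * Real.pi : ℝ) : ℂ) * (1 - I * u)) ^ (1 / 2 : ℂ)

lemma base_slit (u : ℝ) : ((4 * Real.pi : ℝ) : ℂ) * (1 - I * u) ∈ slitPlane := by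
  rw [Complex.mem_slitPlane_iff]
  left
  rw [Complex.re_ofReal_mul]
  have : (1 - I * (u : ℂ)).re = 1 := by simp
  rw [this]
  have := Real.pi_pos
  linarith

lemma ss_sq (u : ℝ) : ss u ^ 2 = ((4 * Real.pi : ℝ) : ℂ) * (1 - I * u) := by
  unfold ss
  have := Complex.cpow_nat_inv_pow (((4 * Real.pi : ℝ) : ℂ) * (1 - I * u)) (n := 2) (by norm_num)
  rw [one_div]
  exact_mod_cast this

lemma one_sub_ne (u : ℝ) : (1 - I * (u : ℂ)) ≠ 0 := by
  intro h
  have := congrArg Complex.re h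
  simp at this

lemma ss_ne (u : ℝ) : ss u ≠ 0 := by
  intro h
  have h1 := ss_sq u
  rw [h] at h1
  have h2 : ((4 * Real.pi : ℝ) : ℂ) ≠ 0 := by
    have := Real.pi_pos
    exact_mod_cast (by linarith : 4 * Real.pi > 0).ne'
  have := mul_ne_zero h2 (one_sub_ne u)
  apply this
  rw [← h1]
  ring

lemma norm_ss_ge {u : ℝ} (hu : 0 ≤ u) : Real.sqrt u ≤ ‖ss u‖ := by
  have h1 : ‖ss u‖ ^ 2 = 4 * Real.pi * ‖1 - I * (u : ℂ)‖ := by
    rw [← norm_pow, ss_sq, norm_mul, Complex.norm_real, Real.norm_eq_abs, abs_of_pos]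
    have := Real.pi_pos
    linarith
  have h2 : u ≤ ‖1 - I * (u : ℂ)‖ := by
    have := Complex.abs_im_le_norm (1 - I * (u : ℂ))
    have h3 : (1 - I * (u : ℂ)).im = -u := by simp
    rw [h3, abs_neg, abs_of_nonneg hu] at this
    exact this
  have h3 : u ≤ ‖ss u‖ ^ 2 := by
    rw [h1]
    have hpi := Real.pi_gt_three
    nlinarith [norm_nonneg (1 - I * (u : ℂ))]
  exact Real.sqrt_le_iff.2 ⟨norm_nonneg _, h3⟩

lemma ss_deriv (u : ℝ) : HasDerivAt ss (-(I / 2) * ss u / (1 - I * u)) u := by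
  have hpi : ((4 * Real.pi : ℝ) : ℂ) ≠ 0 := by
    have := Real.pi_pos
    exact_mod_cast (by linarith : 4 * Real.pi > 0).ne'
  have h1 : HasDerivAt (fun z : ℂ => ((4 * Real.pi : ℝ) : ℂ) * (1 - I * z))
      (((4 * Real.pi : ℝ) : ℂ) * (-I)) (u : ℂ) := by
    have := (((hasDerivAt_id (u : ℂ)).const_mul I).const_sub 1).const_mul ((4 * Real.pi : ℝ) : ℂ)
    simpa using this
  have h2 := (h1.cpow_const (c := (1 / 2 : ℂ)) (base_slit u)).comp_ofReal
  refine h2.congr_deriv ?_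
  have h3 : (((4 * Real.pi : ℝ) : ℂ) * (1 - I * u)) ^ ((1 / 2 : ℂ) - 1) =
      ss u / (((4 * Real.pi : ℝ) : ℂ) * (1 - I * u)) := by
    rw [Complex.cpow_sub _ _ (mul_ne_zero hpi (one_sub_ne u)), Complex.cpow_one]
    rfl
  rw [h3]
  have := one_sub_ne u
  field_simp

/-- the weight -/
noncomputable def WW (k : ℕ) (q u : ℝ) : ℂ :=
  (ss u)⁻¹ ^ k * ((Real.exp (-(q / (4 * (1 + u ^ 2)))) : ℝ) : ℂ)

/-- the logarithmic derivative of the weight -/
noncomputable def LW (k : ℕ) (q u : ℝ) : ℂ :=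
  k * (I / 2) / (1 - I * u) + ((q * u / (2 * (1 + u ^ 2) ^ 2) : ℝ) : ℂ)

lemma WW_deriv (k : ℕ) (q u : ℝ) : HasDerivAt (WW k q) (WW k q u * LW k q u) u := by
  have h1 : HasDerivAt (fun u => (ss u)⁻¹) ((I / 2) * (ss u)⁻¹ / (1 - I * u)) u := by
    have := (ss_deriv u).inv (ss_ne u)
    refine this.congr_deriv ?_
    have h1 := ss_ne u
    have h2 := one_sub_ne u
    field_simp
  have h2 := h1.fun_pow k
  have h3 : HasDerivAt (fun u : ℝ => Real.exp (-(q / (4 * (1 + u ^ 2)))))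
      (Real.exp (-(q / (4 * (1 + u ^ 2)))) * (q * u / (2 * (1 + u ^ 2) ^ 2))) u := by
    have h4 : HasDerivAt (fun u : ℝ => -(q / (4 * (1 + u ^ 2))))
        (q * u / (2 * (1 + u ^ 2) ^ 2)) u := by
      have h5 := ((hasDeriv_sq u).const_mul 4)
      have h6 := ((hasDerivAt_const u q).div h5 (by have := pos1 u; positivity)).neg
      refine h6.congr_deriv ?_
      have := (pos1 u).ne'
      field_simp
      ring
    exact h4.exp
  have h7 := h2.fun_mul h3.ofReal_comp
  refine h7.congr_deriv ?_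
  simp only [WW, LW]
  have h8 := one_sub_ne u
  have h9 := ss_ne u
  rcases Nat.eq_zero_or_pos k with hk | hk
  · subst hk
    simp
  · obtain ⟨m, rfl⟩ : ∃ m, k = m + 1 := ⟨k - 1, by omega⟩
    simp only [Nat.add_sub_cancel]
    push_cast
    rw [pow_succ]
    ring

lemma WW_cont (k : ℕ) (q : ℝ) : Continuous (WW k q) :=
  continuous_iff_continuousAt.2 fun u => (WW_deriv k q u).continuousAt

lemma LW_cont (k : ℕ) (q : ℝ) : Continuous (LW k q) := by
  unfold LW
  refine Continuous.add ?_ ?_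
  · exact Continuous.div (by fun_prop) (by fun_prop) one_sub_ne
  · refine Complex.continuous_ofReal.comp ?_
    refine Continuous.div (by fun_prop) (by fun_prop) fun u => ?_
    have := pos1 u
    positivity

lemma norm_WW_le (k : ℕ) {q u R : ℝ} (hR : 2 ≤ R) (hq : 0 ≤ q) (hu : R ≤ u) (hu8 : u ≤ 8 * R) :
    ‖WW k q u‖ ≤ (Real.sqrt R)⁻¹ ^ k * Real.exp (-(q / R ^ 2 / 260)) := by
  have hR0 : 0 < R := by linarith
  have hsR : 0 < Real.sqrt R := Real.sqrt_pos.2 hR0
  unfold WW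
  rw [norm_mul, norm_pow, norm_inv, Complex.norm_real, Real.norm_eq_abs, Real.abs_exp]
  have h1 : Real.sqrt R ≤ ‖ss u‖ :=
    (Real.sqrt_le_sqrt hu).trans (norm_ss_ge (hR0.le.trans hu))
  have h2 : q / R ^ 2 / 260 ≤ q / (4 * (1 + u ^ 2)) := by
    rw [div_div]
    have h3 : 4 * (1 + u ^ 2) ≤ R ^ 2 * 260 := by nlinarith
    have := pos1 u
    gcongr
  gcongr

lemma norm_LW_le (k : ℕ) {q u R : ℝ} (hR : 2 ≤ R) (hq : 0 ≤ q) (hu : R ≤ u) :
    ‖LW k q u‖ ≤ (k + q / R ^ 2) / R := by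
  have hR0 : 0 < R := by linarith
  have hu0 : 0 < u := by linarith
  unfold LW
  refine (norm_add_le _ _).trans ?_
  have h1 : ‖(k : ℂ) * (I / 2) / (1 - I * u)‖ ≤ k / R := by
    rw [norm_div, norm_mul, norm_div, Complex.norm_I, Complex.norm_natCast]
    have h2 : R ≤ ‖1 - I * (u : ℂ)‖ := by
      have := Complex.abs_im_le_norm (1 - I * (u : ℂ))
      have h3 : (1 - I * (u : ℂ)).im = -u := by simp
      rw [h3, abs_neg, abs_of_pos hu0] at this
      linarith
    have h3 : (k : ℝ) * (1 / ‖(2 : ℂ)‖) ≤ k := by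
      have : ‖(2 : ℂ)‖ = 2 := by norm_num
      rw [this]
      have : (0 : ℝ) ≤ k := Nat.cast_nonneg k
      linarith
    gcongr
  have h4 : ‖((q * u / (2 * (1 + u ^ 2) ^ 2) : ℝ) : ℂ)‖ ≤ q / R ^ 2 / R := by
    rw [Complex.norm_real, Real.norm_eq_abs, abs_of_nonneg (by positivity)]
    rw [div_div, div_le_div_iff₀ (by positivity) (by positivity)]
    have h5 : R ^ 2 * R ≤ u ^ 3 := by
      have : R ^ 3 ≤ u ^ 3 := by gcongr
      nlinarith
    have h6 : u * u ^ 3 ≤ 2 * (1 + u ^ 2) ^ 2 := by nlinarith [sq_nonneg u, sq_nonneg (u ^ 2)]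
    calc q * u * (R ^ 2 * R) ≤ q * u * u ^ 3 := by gcongr
      _ = q * (u * u ^ 3) := by ring
      _ ≤ q * (2 * (1 + u ^ 2) ^ 2) := by gcongr
  rw [add_div]
  linarith

/-- elementary inequality -/
lemma x_exp (x : ℝ) (hx : 0 ≤ x) (k : ℕ) : (1 + 7 * (k + x)) * Real.exp (-(x / 260)) ≤
    (3641 + 7 * k) * Real.exp (-(x / 520)) := by
  have h1 : Real.exp (-(x / 260)) = Real.exp (-(x / 520)) * Real.exp (-(x / 520)) := by
    rw [← Real.exp_add]; congr 1; ring
  have h2 : Real.exp (-(x / 520)) ≤ 1 := by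
    rw [Real.exp_le_one_iff]; linarith
  have h3 : x * Real.exp (-(x / 520)) ≤ 520 := by
    have h4 : x / 520 ≤ Real.exp (x / 520) := by
      have := Real.add_one_le_exp (x / 520)
      linarith
    have h5 : Real.exp (x / 520) * Real.exp (-(x / 520)) = 1 := by
      rw [← Real.exp_add]; simp
    have h6 := mul_le_mul_of_nonneg_right h4 (Real.exp_pos (-(x / 520))).le
    rw [h5] at h6
    linarith
  rw [h1]
  have h7 : (1 + 7 * (k + x)) * Real.exp (-(x / 520)) ≤ 3641 + 7 * k := by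
    have : (0 : ℝ) ≤ k := Nat.cast_nonneg k
    nlinarith [Real.exp_pos (-(x / 520))]
  calc _ = ((1 + 7 * (k + x)) * Real.exp (-(x / 520))) * Real.exp (-(x / 520)) := by ring
    _ ≤ _ := mul_le_mul_of_nonneg_right h7 (Real.exp_pos _).le

lemma integrand_eq (k : ℕ) (r q u : ℝ) :
    cexp (-(I * ((u * r : ℝ) : ℂ))) * blk k u q = WW k q u * cexp (-(I * ((th r q u : ℝ) : ℂ))) := by
  have h1 : (q : ℂ) / (4 * (1 - I * u)) =
      ((q / (4 * (1 + u ^ 2)) : ℝ) : ℂ) + I * ((q / 4 * (u / (1 + u ^ 2)) : ℝ) : ℂ) := by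
    have h2 := one_sub_ne u
    have h3 : ((1 : ℂ) + (u : ℂ) ^ 2) ≠ 0 := by
      have := (pos1 u).ne'
      exact_mod_cast this
    have h4 : (1 - I * (u : ℂ)) * (1 + I * u) = 1 + (u : ℂ) ^ 2 := by
      ring_nf
      rw [Complex.I_sq]
      ring
    push_cast
    rw [div_eq_iff (mul_ne_zero (by norm_num) h2)]
    have h5 : (q : ℂ) = q * ((1 - I * (u : ℂ)) * (1 + I * u)) / (1 + (u : ℂ) ^ 2) := by
      rw [h4, mul_div_assoc, div_self h3, mul_one]
    conv_lhs => rw [h5]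
    field_simp
  unfold blk WW
  rw [h1]
  have h6 : -(((q / (4 * (1 + u ^ 2)) : ℝ) : ℂ) + I * ((q / 4 * (u / (1 + u ^ 2)) : ℝ) : ℂ)) =
      ((-(q / (4 * (1 + u ^ 2))) : ℝ) : ℂ) + -(I * ((q / 4 * (u / (1 + u ^ 2)) : ℝ) : ℂ)) := by
    push_cast; ring
  rw [h6, Complex.exp_add, Complex.ofReal_exp]
  have h7 : cexp (-(I * ((th r q u : ℝ) : ℂ))) = cexp (-(I * ((u * r : ℝ) : ℂ))) *
      cexp (-(I * ((q / 4 * (u / (1 + u ^ 2)) : ℝ) : ℂ))) := by
    rw [← Complex.exp_add]
    congr 1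
    unfold th
    push_cast
    ring
  rw [h7]
  unfold ss
  ring

theorem bo : S_BO := by
  intro k c hc
  set K : ℝ := 2 * (6 / c + 8 * Real.sqrt (4000 / c)) with hK
  have hKpos : 0 < K := by positivity
  refine ⟨K * (3641 + 7 * k), by positivity, ?_⟩
  intro R r q a b hR hr hq ha hab hb
  have hR0 : 0 < R := by linarith
  have hsR : 0 < Real.sqrt R := Real.sqrt_pos.2 hR0
  have hHb : ∀ t ∈ Icc a b, ‖HH r q a t‖ ≤ K * Real.sqrt R := fun t ht =>
    HH_bound hc hR hr hq ha ht.1 (ht.2.trans hb)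
  simp only [integrand_eq]
  have hparts := intervalIntegral.integral_mul_deriv_eq_deriv_mul (a := a) (b := b)
    (u := WW k q) (v := HH r q a) (u' := fun u => WW k q u * LW k q u)
    (v' := fun u => cexp (-(I * ((th r q u : ℝ) : ℂ))))
    (fun x _ => WW_deriv k q x) (fun x _ => HH_deriv r q a x)
    (((WW_cont k q).mul (LW_cont k q)).intervalIntegrable _ _)
    ((exp_cont r q).intervalIntegrable _ _)
  rw [hparts]
  set x : ℝ := q / R ^ 2 with hx
  have hx0 : 0 ≤ x := by positivity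
  set Q : ℝ := (Real.sqrt R)⁻¹ ^ k * Real.exp (-(x / 260)) with hQ
  have hQ0 : 0 ≤ Q := by positivity
  have h1 : HH r q a a = 0 := by simp [HH]
  have h2 : ‖WW k q b * HH r q a b‖ ≤ Q * (K * Real.sqrt R) := by
    rw [norm_mul]
    have := norm_WW_le k hR hq (ha.trans hab) hb
    have h3 := hHb b ⟨hab, le_rfl⟩
    gcongr
  have h3 : ‖∫ u in a..b, WW k q u * LW k q u * HH r q a u‖ ≤
      Q * ((k + x) / R) * (K * Real.sqrt R) * |b - a| := by
    refine intervalIntegral.norm_integral_le_of_norm_le_const fun u hu => ?_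
    rw [uIoc_of_le hab] at hu
    rw [norm_mul, norm_mul]
    have h4 := norm_WW_le k hR hq (ha.trans hu.1.le) (hu.2.trans hb)
    have h5 := norm_LW_le k hR hq (ha.trans hu.1.le)
    have h6 := hHb u ⟨hu.1.le, hu.2⟩
    gcongr
  have h4 : |b - a| ≤ 7 * R := by
    rw [abs_of_nonneg (by linarith)]
    linarith
  have h5 : Q * ((k + x) / R) * (K * Real.sqrt R) * |b - a| ≤
      Q * (7 * (k + x)) * (K * Real.sqrt R) := by
    calc Q * ((k + x) / R) * (K * Real.sqrt R) * |b - a|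
        ≤ Q * ((k + x) / R) * (K * Real.sqrt R) * (7 * R) := by gcongr
      _ = Q * (7 * (k + x)) * (K * Real.sqrt R) := by field_simp
  rw [h1, mul_zero, sub_zero]
  refine (norm_sub_le _ _).trans ?_
  have h6 : Q * (K * Real.sqrt R) + Q * (7 * (k + x)) * (K * Real.sqrt R) =
      (Real.sqrt R)⁻¹ ^ k * Real.sqrt R * K * ((1 + 7 * (k + x)) * Real.exp (-(x / 260))) := by
    rw [hQ]; ring
  have h7 : (Real.sqrt R)⁻¹ ^ k * Real.sqrt R = R ^ ((1 - (k : ℝ)) / 2) := by
    rw [Real.sqrt_eq_rpow, ← Real.rpow_neg hR0.le, ← Real.rpow_natCast, ← Real.rpow_mul hR0.le,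
      ← Real.rpow_add hR0]
    congr 1
    ring
  have h8 : -(1 / (520 * R ^ 2) * q) = -(x / 520) := by
    rw [hx]; field_simp
  rw [h8]
  calc ‖WW k q b * HH r q a b‖ + ‖∫ u in a..b, WW k q u * LW k q u * HH r q a u‖
      ≤ Q * (K * Real.sqrt R) + Q * (7 * (k + x)) * (K * Real.sqrt R) := by linarith
    _ = R ^ ((1 - (k : ℝ)) / 2) * K * ((1 + 7 * (k + x)) * Real.exp (-(x / 260))) := by
        rw [h6, h7]
    _ ≤ R ^ ((1 - (k : ℝ)) / 2) * K * ((3641 + 7 * k) * Real.exp (-(x / 520))) := by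
        have := x_exp x hx0 k
        gcongr
    _ = K * (3641 + 7 * k) * R ^ ((1 - (k : ℝ)) / 2) * Real.exp (-(x / 520)) := by ring

end Pool.Agent.W253.FA
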